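import Mathlib
import Pool.Agent.R587.SqGroup2
import Pool.Agent.R587.SqSpace

/-!
# MP_e6ac2b_gt, Q1 and Q2

There is a regular separable quasitopological group (even a commutative group in which every
element has order at most two) that is not completely regular.
-/

namespace Pool.Agent.Results.MP_e6ac2b_gt.SeparableBoolean

open TopologicalSpace

/-- There is a commutative group `G` of exponent two with a topology such that all left and
right translations are continuous, inversion is continuous, `G` is T₃ (regular and T₁),
`G` is separable, and `G` is not completely regular.  (Mathlib's `CompletelyRegularSpace`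
does not include T₁, so its negation is the strongest form.) -/
theorem result :
    ∃ (G : Type) (_ : CommGroup G) (_ : TopologicalSpace G),
      (∀ g : G, g * g = 1) ∧
      (∀ a : G, Continuous (fun x => a * x)) ∧
      (∀ a : G, Continuous (fun x => x * a)) ∧
      Continuous (fun x : G => x⁻¹) ∧
      T3Space G ∧ SeparableSpace G ∧ ¬ CompletelyRegularSpace G := by
  obtain ⟨C, hcl, hC⟩ := Pool.Agent.R587.Sq.exists_family
  have h01 : Pool.Agent.R587.Sq.Pt.nd 0 0 [] ≠ Pool.Agent.R587.Sq.Pt.inf := by
    intro h
    cases h
  exact Pool.Agent.R587.Sq.sq_main Pool.Agent.R587.Sq.Pt Pool.Agent.R587.Sq.sepPt hcl hC h01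
    Pool.Agent.R587.Sq.ncr

end Pool.Agent.Results.MP_e6ac2b_gt.SeparableBoolean
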